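import Pool.Agent.H55.FFM.TD

/-!
# Row ALN of the board FFM: iteration of an algebraic dependence
-/

set_option autoImplicit false

open Pool.Agent.H55.FFM

namespace Pool.Agent.H69.FFM

/-- **Row ALN.** -/
theorem pf_ALN : T_ALN := by
  intro k K _ _ _ τ a ha
  have hτ : ∀ z ∈ IntermediateField.adjoin k {a},
      τ z ∈ algebraicClosure (IntermediateField.adjoin k {a}) K := by
    have h1 : IntermediateField.adjoin k {a} ≤
        ((algebraicClosure (IntermediateField.adjoin k {a}) K).restrictScalars k).comap τ := by
      rw [IntermediateField.adjoin_le_iff, Set.singleton_subset_iff]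
      exact mem_algebraicClosure_iff.2 ha
    intro z hz
    exact h1 hz
  let φ : IntermediateField.adjoin k {a} →+*
      algebraicClosure (IntermediateField.adjoin k {a}) K :=
    { toFun := fun z => ⟨τ z, hτ z z.2⟩
      map_one' := Subtype.ext (map_one τ)
      map_mul' := fun x y => Subtype.ext (map_mul τ _ _)
      map_zero' := Subtype.ext (map_zero τ)
      map_add' := fun x y => Subtype.ext (map_add τ _ _) }
  have step : ∀ x : K, IsAlgebraic (IntermediateField.adjoin k {a}) x →
      IsAlgebraic (IntermediateField.adjoin k {a}) (τ x) := by
    intro x hx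
    have h1 : IsAlgebraic (algebraicClosure (IntermediateField.adjoin k {a}) K)
        ((τ : K →+* K) x) :=
      hx.ringHom_of_comp_eq φ (τ : K →+* K) φ.injective (by ext z; rfl)
    exact h1.restrictScalars _
  intro n
  induction n with
  | zero =>
    exact isAlgebraic_algebraMap
      (⟨a, IntermediateField.mem_adjoin_simple_self k a⟩ : IntermediateField.adjoin k {a})
  | succ n ih =>
    rw [Function.iterate_succ_apply']
    exact step _ ih

end Pool.Agent.H69.FFM
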