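import Pool.Agent.H55.FFM.TD

/-!
# Row CIJ of the board FFM: independence of two coordinates and a nonconstant polynomial
-/

set_option autoImplicit false

open MvPolynomial Pool.Agent.H55.FFM

namespace Pool.Agent.H69.FFM

/-- a polynomial of positive degree is independent of the coefficients -/
theorem ind_poly {k : Type} [Field k] (P : Polynomial (MvPolynomial (Fin 2) k))
    (hP : P.natDegree ≠ 0) :
    AlgebraicIndependent k ![P, Polynomial.C (X 0), Polynomial.C (X 1)] := by
  rw [algebraicIndependent_iff]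
  intro F hF
  have h1 : (aeval ![P, Polynomial.C (X 0), Polynomial.C (X 1)] :
      MvPolynomial (Fin 3) k →ₐ[k] Polynomial (MvPolynomial (Fin 2) k)) =
      ((Polynomial.aeval P : Polynomial (MvPolynomial (Fin 2) k) →ₐ[MvPolynomial (Fin 2) k]
        Polynomial (MvPolynomial (Fin 2) k)).restrictScalars k).comp
        (finSuccEquiv k 2 : MvPolynomial (Fin 3) k →ₐ[k]
          Polynomial (MvPolynomial (Fin 2) k)) := by
    apply MvPolynomial.algHom_ext
    intro i
    rw [aeval_X, AlgHom.comp_apply, AlgHom.restrictScalars_apply]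
    refine Fin.cases ?_ (fun j => ?_) i
    · have e1 : (finSuccEquiv k 2 : MvPolynomial (Fin 3) k →ₐ[k]
          Polynomial (MvPolynomial (Fin 2) k)) (X 0) = Polynomial.X := finSuccEquiv_X_zero
      rw [e1, Polynomial.aeval_X]
      rfl
    · have e1 : (finSuccEquiv k 2 : MvPolynomial (Fin 3) k →ₐ[k]
          Polynomial (MvPolynomial (Fin 2) k)) (X j.succ) = Polynomial.C (X j) :=
        finSuccEquiv_X_succ
      rw [e1, Polynomial.aeval_C]
      fin_cases j <;> rfl
  rw [h1, AlgHom.comp_apply, AlgHom.restrictScalars_apply] at hF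
  have h2 : Polynomial.aeval P (finSuccEquiv k 2 F) = (finSuccEquiv k 2 F).comp P := by
    rw [Polynomial.aeval_def, Polynomial.comp]
    rfl
  have h3 : (finSuccEquiv k 2 F).comp P = 0 := by rw [← h2]; exact hF
  rw [Polynomial.comp_eq_zero_iff] at h3
  rcases h3 with h3 | ⟨-, h3⟩
  · exact (map_eq_zero_iff _ (finSuccEquiv k 2).injective).1 h3
  · exfalso
    apply hP
    rw [h3, Polynomial.natDegree_C]

/-- **Row CIJ.** -/
theorem pf_CIJ : T_CIJ := by
  intro k _ J hJ
  obtain ⟨l, hl⟩ : ∃ l, degreeOf l J ≠ 0 := by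
    by_contra hc
    push Not at hc
    apply hJ (J.coeff 0)
    rw [← totalDegree_eq_zero_iff_eq_C, ← Nat.le_zero, totalDegree]
    apply Finset.sup_le
    intro m hm
    have h1 : m = 0 := by
      ext i
      have h2 := monomial_le_degreeOf i hm
      rw [hc i] at h2
      simpa using h2
    rw [h1]
    simp
  let e : Equiv.Perm (Fin 3) := Equiv.swap l 0
  let g : MvPolynomial (Fin 3) k →ₐ[k] Polynomial (MvPolynomial (Fin 2) k) :=
    (finSuccEquiv k 2 : MvPolynomial (Fin 3) k →ₐ[k]
      Polynomial (MvPolynomial (Fin 2) k)).comp (rename e)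
  have hdeg : (g J).natDegree ≠ 0 := by
    change (finSuccEquiv k 2 (rename e J)).natDegree ≠ 0
    rw [natDegree_finSuccEquiv]
    have h1 : e l = 0 := Equiv.swap_apply_left l 0
    rw [← h1, degreeOf_rename_of_injective e.injective]
    exact hl
  have hind := ind_poly (g J) hdeg
  have hX : ∀ j : Fin 2, g (X (e.symm j.succ)) = Polynomial.C (X j) := by
    intro j
    change finSuccEquiv k 2 (rename e (X (e.symm j.succ))) = _
    rw [rename_X, Equiv.apply_symm_apply]
    exact finSuccEquiv_X_succ
  refine ⟨e.symm (Fin.succ 0), e.symm (Fin.succ 1), ?_⟩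
  apply AlgebraicIndependent.of_comp g
  let σ : Fin 3 → Fin 3 := ![1, 2, 0]
  have hσ : Function.Injective σ := by decide
  have h4 := hind.comp σ hσ
  have h5 : (![g J, Polynomial.C (X 0), Polynomial.C (X 1)] ∘ σ) =
      g ∘ ![(X (e.symm (Fin.succ 0)) : MvPolynomial (Fin 3) k), X (e.symm (Fin.succ 1)), J] := by
    funext i
    fin_cases i
    · exact (hX 0).symm
    · exact (hX 1).symm
    · rfl
  rwa [h5] at h4

end Pool.Agent.H69.FFM
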