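import Pool.Agent.H55.FFM.TD

/-!
# Row DIC of the board FFM: dependent or independent
-/

set_option autoImplicit false

open Pool.Agent.H55.FFM

namespace Pool.Agent.H69.FFM

/-- **Row DIC.** -/
theorem pf_DIC : T_DIC := by
  intro k K _ _ _ a b ha
  by_cases hb : IsAlgebraic (IntermediateField.adjoin k {a}) b
  · exact Or.inr hb
  · left
    have h1 : AlgebraicIndependent k (fun _ : Fin 1 => a) := by
      have h2 := (algebraicIndependent_iff_transcendental (R := k) (x := a)).2 ha
      have h3 : (![a] : Fin 1 → K) = fun _ : Fin 1 => a := by
        funext i; fin_cases i; rfl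
      rwa [h3] at h2
    have h2 : Transcendental (Algebra.adjoin k (Set.range fun _ : Fin 1 => a)) b := by
      intro hal
      apply hb
      have hle : Algebra.adjoin k (Set.range fun _ : Fin 1 => a) ≤
          (IntermediateField.adjoin k {a}).toSubalgebra := by
        rw [Algebra.adjoin_le_iff]
        rintro x ⟨_, rfl⟩
        exact IntermediateField.mem_adjoin_simple_self k a
      exact hal.ringHom_of_comp_eq (Subalgebra.inclusion hle).toRingHom (RingHom.id K)
        (Subalgebra.inclusion_injective hle) (by ext z; rfl)
    have h3 := (h1.option_iff_transcendental b).2 h2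
    let f : Fin 2 → Option (Fin 1) := ![some 0, none]
    have hf : Function.Injective f := by
      intro i j hij
      fin_cases i <;> fin_cases j <;> simp_all [f]
    have h4 := h3.comp f hf
    have h5 : ((fun o : Option (Fin 1) => o.elim b (fun _ : Fin 1 => a)) ∘ f) = ![a, b] := by
      funext i
      fin_cases i <;> rfl
    rwa [h5] at h4

end Pool.Agent.H69.FFM
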